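import Mathlib
open Filter Topology
namespace Pool.Agent.H534.FC
set_option linter.unusedSectionVars false
variable {G : Type*} [AddCommGroup G] [DecidableEq G]

theorem folner_set (S : Finset G) (q : ℕ) (hq : 0 < q) :
    ∃ K : Finset G, K.Nonempty ∧ ∀ g ∈ S, q * ((K.image (fun x => g + x)) \ K).card ≤ K.card := by
  by_contra hcon
  push Not at hcon
  set B : ℕ → Finset G := fun n =>
    (Fintype.piFinset (fun _ : S => Finset.range n)).image (fun a => ∑ g : S, a g • (g : G)) with hB
  have hcard : ∀ n, (B n).card ≤ n ^ S.card := by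
    intro n
    refine (Finset.card_image_le).trans ?_
    simp [Fintype.card_piFinset]
  have hmono : ∀ n, B n ⊆ B (n+1) := by
    intro n x hx
    simp only [hB, Finset.mem_image, Fintype.mem_piFinset, Finset.mem_range] at hx ⊢
    obtain ⟨a, ha, rfl⟩ := hx
    exact ⟨a, fun i => (ha i).trans (Nat.lt_succ_self n), rfl⟩
  have hshift : ∀ n, ∀ g ∈ S, (B n).image (fun x => g + x) ⊆ B (n+1) := by
    intro n g hg y hy
    rw [Finset.mem_image] at hy
    obtain ⟨x, hx, rfl⟩ := hy
    simp only [hB, Finset.mem_image, Fintype.mem_piFinset, Finset.mem_range] at hx ⊢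
    obtain ⟨a, ha, rfl⟩ := hx
    refine ⟨fun i => a i + (if i = ⟨g, hg⟩ then 1 else 0), fun i => ?_, ?_⟩
    · have := ha i
      dsimp only
      split_ifs <;> omega
    · simp only [add_smul, Finset.sum_add_distrib]
      rw [add_comm]
      congr 1
      rw [Finset.sum_eq_single (⟨g, hg⟩ : S)]
      · simp
      · intro b _ hb; simp [hb]
      · intro h; exact absurd (Finset.mem_univ _) h
  have hne : ∀ n, (B (n+1)).Nonempty := by
    intro n
    refine ⟨0, ?_⟩
    simp only [hB, Finset.mem_image, Fintype.mem_piFinset, Finset.mem_range]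
    exact ⟨fun _ => 0, fun _ => Nat.succ_pos n, by simp⟩
  have hq' : (0:ℝ) < q := by exact_mod_cast hq
  have hgrow : ∀ n, ((B (n+1)).card : ℝ) * (1 + 1/(q:ℝ)) ≤ ((B (n+2)).card : ℝ) := by
    intro n
    obtain ⟨g, hg, hlt⟩ := hcon (B (n+1)) (hne n)
    have h1 : (B (n+1)).card + ((B (n+1)).image (fun x => g + x) \ B (n+1)).card ≤ (B (n+2)).card := by
      rw [← Finset.card_union_of_disjoint Finset.disjoint_sdiff]
      apply Finset.card_le_card
      apply Finset.union_subset (hmono _)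
      exact Finset.sdiff_subset.trans (hshift _ g hg)
    have h2 : ((B (n+1)).card : ℝ) ≤ q * (((B (n+1)).image (fun x => g + x) \ B (n+1)).card : ℝ) := by
      exact_mod_cast hlt.le
    have h3 : ((B (n+1)).card : ℝ) + (((B (n+1)).image (fun x => g + x) \ B (n+1)).card : ℝ) ≤ ((B (n+2)).card : ℝ) := by
      exact_mod_cast h1
    have h4 : ((B (n+1)).card : ℝ) * (1/(q:ℝ)) ≤ (((B (n+1)).image (fun x => g + x) \ B (n+1)).card : ℝ) := by
      rw [mul_one_div, div_le_iff₀ hq']
      linarith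
    rw [mul_add, mul_one]
    linarith
  have hr : (1:ℝ) < 1 + 1/(q:ℝ) := by
    have : 0 < 1/(q:ℝ) := by positivity
    linarith
  have hexp : ∀ n, (1 + 1/(q:ℝ))^n ≤ ((B (n+1)).card : ℝ) := by
    intro n
    induction n with
    | zero =>
      simp only [pow_zero]
      exact_mod_cast (hne 0).card_pos
    | succ n ih =>
      rw [pow_succ]
      exact (mul_le_mul_of_nonneg_right ih (by linarith)).trans (hgrow n)
  have hlim := tendsto_pow_const_div_const_pow_of_one_lt S.card hr
  have hev := (hlim.eventually (gt_mem_nhds (show (0:ℝ) < 1/(1 + 1/(q:ℝ)) by positivity))).and (eventually_ge_atTop 1)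
  obtain ⟨N, hN, hN1⟩ := hev.exists
  obtain ⟨n, rfl⟩ : ∃ n, N = n + 1 := ⟨N - 1, by omega⟩
  have h5 := hexp n
  have h6 : ((B (n+1)).card : ℝ) ≤ ((n+1 : ℕ):ℝ) ^ S.card := by exact_mod_cast hcard (n+1)
  have hpos : (0:ℝ) < (1 + 1/(q:ℝ))^(n+1) := by positivity
  rw [div_lt_div_iff₀ hpos (by linarith)] at hN
  rw [pow_succ, one_mul] at hN
  have h7 : (1 + 1/(q:ℝ))^n * (1 + 1/(q:ℝ)) ≤ ((n+1 : ℕ):ℝ) ^ S.card * (1 + 1/(q:ℝ)) :=
    mul_le_mul_of_nonneg_right (h5.trans h6) (by linarith)
  linarith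

end Pool.Agent.H534.FC
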