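import Mathlib
open Filter Topology
namespace Pool.Agent.H534.FC
set_option linter.unusedSectionVars false
variable {G : Type*} [AddCommGroup G] [DecidableEq G]

/-- The doubling homomorphism. -/
abbrev D2 (G : Type*) [AddCommGroup G] : G →+ G := nsmulAddMonoidHom 2

theorem mem_range_D2 (x : G) : x ∈ (D2 G).range ↔ ∃ y : G, 2 • y = x := by
  simp [AddMonoidHom.mem_range]

theorem fib_finite [Finite (D2 G).ker] (s : Finset G) :
    ((fun x : G => 2 • x) ⁻¹' (s : Set G)).Finite := by
  apply Set.Finite.preimage' s.finite_toSet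
  intro b _
  by_cases hb : ∃ x0 : G, 2 • x0 = b
  · obtain ⟨x0, rfl⟩ := hb
    have hk : (((D2 G).ker : Set G)).Finite := Set.toFinite _
    refine (hk.image (fun k => x0 + k)).subset ?_
    intro x hx
    simp only [Set.mem_preimage, Set.mem_singleton_iff] at hx
    refine ⟨x - x0, ?_, by abel⟩
    simp [AddMonoidHom.mem_ker, smul_sub, hx]
  · convert Set.finite_empty
    ext x
    simp only [Set.mem_preimage, Set.mem_singleton_iff, Set.mem_empty_iff_false, iff_false]
    exact fun h => hb ⟨x, h⟩

/-- preimage under doubling -/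
noncomputable def Dinv [Finite (D2 G).ker] (s : Finset G) : Finset G := (fib_finite s).toFinset

theorem mem_Dinv [Finite (D2 G).ker] (s : Finset G) (x : G) : x ∈ Dinv s ↔ 2 • x ∈ s := by
  simp [Dinv]

open Classical in
theorem card_Dinv [Finite (D2 G).ker] (s : Finset G) :
    (Dinv s).card = Nat.card (D2 G).ker * (s.filter (· ∈ (D2 G).range)).card := by
  rw [Finset.card_eq_sum_card_fiberwise (f := fun x : G => 2 • x) (t := s.filter (· ∈ (D2 G).range))]
  · rw [Finset.sum_const_nat (m := Nat.card (D2 G).ker), mul_comm]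
    intro b hb
    rw [Finset.mem_filter, mem_range_D2] at hb
    obtain ⟨hbs, y, hy⟩ := hb
    rw [← Fintype.card_coe, ← Nat.card_eq_fintype_card]
    refine Nat.card_congr
      { toFun := fun a => ⟨a.1 - y, ?_⟩
        invFun := fun k => ⟨y + k.1, ?_⟩
        left_inv := ?_
        right_inv := ?_ }
    · have := a.2
      rw [Finset.mem_filter] at this
      simp [AddMonoidHom.mem_ker, smul_sub, this.2, hy]
    · have hk := k.2
      rw [AddMonoidHom.mem_ker] at hk
      simp only [nsmulAddMonoidHom_apply] at hk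
      rw [Finset.mem_filter, mem_Dinv, smul_add, hk, hy, add_zero]
      exact ⟨hbs, rfl⟩
    · intro a; ext; simp
    · intro a; ext; simp
  · intro x hx
    rw [Finset.mem_coe, mem_Dinv] at hx
    rw [Finset.mem_coe, Finset.mem_filter, mem_range_D2]
    exact ⟨hx, x, rfl⟩

theorem card_Dinv_le [Finite (D2 G).ker] (s : Finset G) :
    (Dinv s).card ≤ Nat.card (D2 G).ker * s.card := by
  classical
  rw [card_Dinv]
  exact Nat.mul_le_mul_left _ (Finset.card_filter_le _ _)

theorem shift_Dinv [Finite (D2 G).ker] (s : Finset G) (g : G) :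
    ((Dinv s).image (fun x => g + x)) \ Dinv s = Dinv ((s.image (fun x => 2 • g + x)) \ s) := by
  ext x
  simp only [Finset.mem_sdiff, Finset.mem_image, mem_Dinv]
  constructor
  · rintro ⟨⟨y, hy, rfl⟩, h2⟩
    exact ⟨⟨2 • y, hy, by rw [smul_add]⟩, h2⟩
  · rintro ⟨⟨y, hy, h⟩, h2⟩
    refine ⟨⟨x - g, ?_, by abel⟩, h2⟩
    rw [smul_sub, ← h]
    simpa using hy

theorem shift_Dinv_card [Finite (D2 G).ker] (s : Finset G) (g : G) :
    (((Dinv s).image (fun x => g + x)) \ Dinv s).card ≤
      Nat.card (D2 G).ker * ((s.image (fun x => 2 • g + x)) \ s).card := by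
  rw [shift_Dinv]
  exact card_Dinv_le _

theorem shift_neg_card (s : Finset G) (g : G) :
    (s \ (s.image (fun x => g + x))).card = ((s.image (fun x => g + x)) \ s).card := by
  have h1 : (s.image (fun x => g + x)).card = s.card :=
    Finset.card_image_of_injective _ (add_right_injective g)
  have h2 := Finset.card_sdiff_add_card_inter s (s.image (fun x => g + x))
  have h3 := Finset.card_sdiff_add_card_inter (s.image (fun x => g + x)) s
  rw [Finset.inter_comm] at h3
  omega

open Classical in
theorem even_count (L : Finset G) (H : AddSubgroup G) [Finite (G ⧸ H)] (δ : ℝ)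
    (h : ∀ g : G, (∃ c : G ⧸ H, g = c.out ∨ g = - c.out) →
      ((L.image (fun x => g + x) \ L).card : ℝ) ≤ δ) :
    |(L.card : ℝ) - (Nat.card (G ⧸ H)) * ((L.filter (· ∈ H)).card : ℝ)| ≤ Nat.card (G ⧸ H) * δ := by
  have := Fintype.ofFinite (G ⧸ H)
  have hsum : L.card = ∑ c : G ⧸ H, (L.filter (fun x => (QuotientAddGroup.mk x : G ⧸ H) = c)).card :=
    Finset.card_eq_sum_card_fiberwise (fun x _ => Finset.mem_coe.2 (Finset.mem_univ _))
  have key : ∀ c : G ⧸ H, |((L.filter (fun x => (QuotientAddGroup.mk x : G ⧸ H) = c)).card : ℝ)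
      - ((L.filter (· ∈ H)).card : ℝ)| ≤ δ := by
    intro c
    have hc : (QuotientAddGroup.mk (c.out) : G ⧸ H) = c := Quotient.out_eq' c
    have e1 : (L.filter (fun x => (QuotientAddGroup.mk x : G ⧸ H) = c)).card ≤
        (L.filter (· ∈ H)).card + (L.image (fun x => -c.out + x) \ L).card := by
      have : (L.filter (fun x => (QuotientAddGroup.mk x : G ⧸ H) = c)).image (fun x => -c.out + x) ⊆
          (L.filter (· ∈ H)) ∪ (L.image (fun x => -c.out + x) \ L) := by
        intro y hy
        rw [Finset.mem_image] at hy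
        obtain ⟨x, hx, rfl⟩ := hy
        rw [Finset.mem_filter] at hx
        have hH : -c.out + x ∈ H := by
          rw [← QuotientAddGroup.eq, hc, hx.2]
        by_cases hL : -c.out + x ∈ L
        · exact Finset.mem_union_left _ (Finset.mem_filter.2 ⟨hL, hH⟩)
        · exact Finset.mem_union_right _ (Finset.mem_sdiff.2 ⟨Finset.mem_image_of_mem _ hx.1, hL⟩)
      have h2 := Finset.card_le_card this
      rw [Finset.card_image_of_injective _ (add_right_injective _)] at h2
      exact h2.trans (Finset.card_union_le _ _)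
    have e2 : (L.filter (· ∈ H)).card ≤
        (L.filter (fun x => (QuotientAddGroup.mk x : G ⧸ H) = c)).card +
          (L.image (fun x => c.out + x) \ L).card := by
      have : (L.filter (· ∈ H)).image (fun x => c.out + x) ⊆
          (L.filter (fun x => (QuotientAddGroup.mk x : G ⧸ H) = c)) ∪
            (L.image (fun x => c.out + x) \ L) := by
        intro y hy
        rw [Finset.mem_image] at hy
        obtain ⟨x, hx, rfl⟩ := hy
        rw [Finset.mem_filter] at hx
        have hH : (QuotientAddGroup.mk (c.out + x) : G ⧸ H) = c := by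
          rw [QuotientAddGroup.mk_add, hc, (QuotientAddGroup.eq_zero_iff x).2 hx.2, add_zero]
        by_cases hL : c.out + x ∈ L
        · exact Finset.mem_union_left _ (Finset.mem_filter.2 ⟨hL, hH⟩)
        · exact Finset.mem_union_right _ (Finset.mem_sdiff.2 ⟨Finset.mem_image_of_mem _ hx.1, hL⟩)
      have h2 := Finset.card_le_card this
      rw [Finset.card_image_of_injective _ (add_right_injective _)] at h2
      exact h2.trans (Finset.card_union_le _ _)
    have b1 := h (-c.out) ⟨c, Or.inr rfl⟩
    have b2 := h (c.out) ⟨c, Or.inl rfl⟩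
    have e1' : ((L.filter (fun x => (QuotientAddGroup.mk x : G ⧸ H) = c)).card : ℝ) ≤
        ((L.filter (· ∈ H)).card : ℝ) + ((L.image (fun x => -c.out + x) \ L).card : ℝ) := by
      exact_mod_cast e1
    have e2' : ((L.filter (· ∈ H)).card : ℝ) ≤
        ((L.filter (fun x => (QuotientAddGroup.mk x : G ⧸ H) = c)).card : ℝ) +
          ((L.image (fun x => c.out + x) \ L).card : ℝ) := by
      exact_mod_cast e2
    rw [abs_le]
    constructor <;> linarith
  have hN : (Nat.card (G ⧸ H) : ℝ) = ∑ _c : G ⧸ H, (1:ℝ) := by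
    simp [Nat.card_eq_fintype_card]
  rw [hsum, hN]
  push_cast
  rw [Finset.sum_mul, Finset.sum_mul, ← Finset.sum_sub_distrib]
  refine (Finset.abs_sum_le_sum_abs _ _).trans ?_
  apply Finset.sum_le_sum
  intro c _
  rw [one_mul, one_mul]
  exact key c

theorem exists_h (hinf : (Set.range (fun x : G => 21 • x)).Infinite) (F1 F3 F7 : Set G)
    (h1 : F1.Finite) (h3 : F3.Finite) (h7 : F7.Finite) :
    ∃ h : G, h ∉ F1 ∧ 3 • h ∉ F3 ∧ 7 • h ∉ F7 := by
  have hfin : ((fun x : G => 21 • x) '' F1 ∪ (fun x : G => 7 • x) '' F3 ∪ (fun x : G => 3 • x) '' F7).Finite :=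
    ((h1.image _).union (h3.image _)).union (h7.image _)
  obtain ⟨y, hy, hy2⟩ := hinf.exists_notMem_finite hfin
  obtain ⟨h, rfl⟩ := hy
  refine ⟨h, fun hh => hy2 ?_, fun hh => hy2 ?_, fun hh => hy2 ?_⟩
  · exact Or.inl (Or.inl ⟨h, hh, rfl⟩)
  · refine Or.inl (Or.inr ⟨3 • h, hh, ?_⟩)
    simp only [smul_smul]; norm_num
  · refine Or.inr ⟨7 • h, hh, ?_⟩
    simp only [smul_smul]; norm_num

end Pool.Agent.H534.FC
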