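import Pool.Agent.H534.FCa
import Pool.Agent.H534.FCb
open Filter Topology
set_option linter.unusedSectionVars false
namespace Pool.Agent.H534.FC
variable {G : Type*} [AddCommGroup G] [DecidableEq G]

/-- three layers -/
noncomputable def Lay [Finite (D2 G).ker] (L : Finset G) : Finset G :=
  L ∪ Dinv L ∪ Dinv (Dinv L)

theorem mem_Lay [Finite (D2 G).ker] (L : Finset G) (x : G) :
    x ∈ Lay L ↔ (x ∈ L ∨ 2 • x ∈ L) ∨ 2 • (2 • x) ∈ L := by
  simp [Lay, mem_Dinv, or_assoc]

/-- quality `k` of a base layer -/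
def Good (e : ℕ → G) (p : ℕ × Finset G) : Prop :=
  p.2.Nonempty ∧
  (∀ i ≤ p.1, ∀ c ∈ ({1, 2, 4} : Finset ℕ),
    (p.1 + 1) ^ 2 * ((p.2.image (fun x => c • e i + x)) \ p.2).card ≤ p.2.card) ∧
  (∀ x ∈ p.2, 2 • x ∉ p.2 ∧ 2 • (2 • x) ∉ p.2 ∧ 2 • (2 • (2 • x)) ∉ p.2)

/-- relation between levels -/
def Rel [Finite (D2 G).ker] (p q : ℕ × Finset G) : Prop :=
  p.1 < q.1 ∧ (∀ z ∈ Lay q.2, z ∉ Lay p.2) ∧ (∀ z ∈ Lay q.2, 2 • z ∉ Lay p.2) ∧
    (∀ z ∈ Lay p.2, 2 • z ∉ Lay q.2)

theorem step [Finite (D2 G).ker] (e : ℕ → G) (hinf : (Set.range (fun x : G => 21 • x)).Infinite)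
    (s : Finset (ℕ × Finset G)) :
    ∃ q : ℕ × Finset G, Good e q ∧ ∀ p ∈ s, Rel p q := by
  classical
  obtain ⟨k, hk⟩ : ∃ k : ℕ, ∀ p ∈ s, p.1 < k :=
    ⟨s.sup (fun p => p.1) + 1, fun p hp => Nat.lt_succ_of_le (Finset.le_sup (f := fun p => p.1) hp)⟩
  set T : Finset G := s.biUnion (fun p => Lay p.2 ∪ (Lay p.2).image (fun z => 2 • z)) with hT
  set S : Finset G := ((Finset.range (k+1)) ×ˢ ({1, 2, 4} : Finset ℕ)).image (fun w => w.2 • e w.1) with hS
  obtain ⟨K, hKne, hK⟩ := folner_set S ((k+1)^2) (by positivity)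
  set F1 : Finset G := (K ×ˢ K).image (fun w => w.1 - 2 • w.2) ∪
    ((T ×ˢ K).image (fun w => w.1 - w.2) ∪ (T ×ˢ K).image (fun w => 2 • w.1 - w.2) ∪
      (T ×ˢ K).image (fun w => 2 • (2 • w.1) - w.2)) ∪
    Dinv ((T ×ˢ K).image (fun w => w.1 - 2 • w.2)) with hF1
  set F3 : Finset G := (K ×ˢ K).image (fun w => w.1 - 4 • w.2) with hF3
  set F7 : Finset G := (K ×ˢ K).image (fun w => w.1 - 8 • w.2) with hF7
  obtain ⟨h, h1, h3, h7⟩ := exists_h hinf (F1 : Set G) (F3 : Set G) (F7 : Set G)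
    F1.finite_toSet F3.finite_toSet F7.finite_toSet
  rw [Finset.mem_coe] at h1 h3 h7
  set L : Finset G := K.image (fun x => h + x) with hL
  have memL : ∀ x, x ∈ L ↔ ∃ u ∈ K, h + u = x := by
    intro x; rw [hL, Finset.mem_image]
  have A1 : ∀ u ∈ K, ∀ v ∈ K, h ≠ v - 2 • u := by
    intro u hu v hv hh
    apply h1
    rw [hF1]
    apply Finset.mem_union_left
    apply Finset.mem_union_left
    rw [Finset.mem_image]
    exact ⟨(v, u), Finset.mem_product.2 ⟨hv, hu⟩, hh.symm⟩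
  have A3 : ∀ u ∈ K, ∀ v ∈ K, 3 • h ≠ v - 4 • u := by
    intro u hu v hv hh
    apply h3
    rw [hF3, Finset.mem_image]
    exact ⟨(v, u), Finset.mem_product.2 ⟨hv, hu⟩, hh.symm⟩
  have A7 : ∀ u ∈ K, ∀ v ∈ K, 7 • h ≠ v - 8 • u := by
    intro u hu v hv hh
    apply h7
    rw [hF7, Finset.mem_image]
    exact ⟨(v, u), Finset.mem_product.2 ⟨hv, hu⟩, hh.symm⟩
  have T0 : ∀ t ∈ T, ∀ u ∈ K, h ≠ t - u := by
    intro u hu v hv hh
    apply h1
    rw [hF1]
    apply Finset.mem_union_left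
    apply Finset.mem_union_right
    apply Finset.mem_union_left
    apply Finset.mem_union_left
    rw [Finset.mem_image]
    exact ⟨(u, v), Finset.mem_product.2 ⟨hu, hv⟩, hh.symm⟩
  have T1 : ∀ t ∈ T, ∀ u ∈ K, h ≠ 2 • t - u := by
    intro u hu v hv hh
    apply h1
    rw [hF1]
    apply Finset.mem_union_left
    apply Finset.mem_union_right
    apply Finset.mem_union_left
    apply Finset.mem_union_right
    rw [Finset.mem_image]
    exact ⟨(u, v), Finset.mem_product.2 ⟨hu, hv⟩, hh.symm⟩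
  have T2 : ∀ t ∈ T, ∀ u ∈ K, h ≠ 2 • (2 • t) - u := by
    intro u hu v hv hh
    apply h1
    rw [hF1]
    apply Finset.mem_union_left
    apply Finset.mem_union_right
    apply Finset.mem_union_right
    rw [Finset.mem_image]
    exact ⟨(u, v), Finset.mem_product.2 ⟨hu, hv⟩, hh.symm⟩
  have T3 : ∀ t ∈ T, ∀ u ∈ K, 2 • h ≠ t - 2 • u := by
    intro u hu v hv hh
    apply h1
    rw [hF1]
    apply Finset.mem_union_right
    rw [mem_Dinv, Finset.mem_image]
    exact ⟨(u, v), Finset.mem_product.2 ⟨hu, hv⟩, hh.symm⟩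
  -- members of the layers avoid T, and so do their doubles
  have B1 : ∀ z ∈ Lay L, z ∉ T := by
    intro z hz hzT
    rw [mem_Lay, memL, memL, memL] at hz
    rcases hz with (⟨u, hu, hu2⟩ | ⟨u, hu, hu2⟩) | ⟨u, hu, hu2⟩
    · exact T0 z hzT u hu (by rw [← hu2]; abel)
    · exact T1 z hzT u hu (by rw [← hu2]; abel)
    · exact T2 z hzT u hu (by rw [← hu2]; abel)
  have B2 : ∀ z ∈ Lay L, 2 • z ∉ T := by
    intro z hz hzT
    rw [mem_Lay, memL, memL, memL] at hz
    rcases hz with (⟨u, hu, hu2⟩ | ⟨u, hu, hu2⟩) | ⟨u, hu, hu2⟩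
    · exact T3 _ hzT u hu (by rw [← hu2, smul_add]; abel)
    · exact T0 _ hzT u hu (by rw [← hu2]; abel)
    · exact T1 _ hzT u hu (by rw [← hu2]; abel)
  refine ⟨(k, L), ⟨hKne.image _, ?_, ?_⟩, ?_⟩
  · intro i hi c hc
    have hmem : c • e i ∈ S := by
      rw [hS, Finset.mem_image]
      exact ⟨(i, c), Finset.mem_product.2 ⟨Finset.mem_range.2 (Nat.lt_succ_of_le hi), hc⟩, rfl⟩
    have h2 := hK _ hmem
    have e1 : (L.image (fun x => c • e i + x)) \ L =
        ((K.image (fun x => c • e i + x)) \ K).image (fun x => h + x) := by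
      rw [Finset.image_sdiff _ _ (add_right_injective h), hL, Finset.image_image, Finset.image_image]
      congr 1
      apply Finset.image_congr
      intro x _
      simp only [Function.comp]
      abel
    have e2 : ((L.image (fun x => c • e i + x)) \ L).card =
        ((K.image (fun x => c • e i + x)) \ K).card := by
      rw [e1, Finset.card_image_of_injective _ (add_right_injective h)]
    have e3 : L.card = K.card := by
      rw [hL, Finset.card_image_of_injective _ (add_right_injective h)]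
    show (k + 1)^2 * ((L.image (fun x => c • e i + x)) \ L).card ≤ L.card
    rw [e2, e3]
    exact h2
  · intro x hx
    have hx' := (memL x).1 hx
    obtain ⟨u, hu, rfl⟩ := hx'
    refine ⟨?_, ?_, ?_⟩
    · intro hx2
      obtain ⟨v, hv, hv2⟩ := (memL _).1 hx2
      apply A1 u hu v hv
      have : v = 2 • (h + u) - h := by rw [← hv2]; abel
      rw [this, smul_add, two_nsmul h]; abel
    · intro hx2
      obtain ⟨v, hv, hv2⟩ := (memL _).1 hx2
      apply A3 u hu v hv
      have : v = 2 • (2 • (h + u)) - h := by rw [← hv2]; abel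
      rw [this]
      simp only [smul_add, smul_smul]
      norm_num
      have : (4:ℕ) • h = 3 • h + h := by rw [← succ_nsmul]
      rw [this]; abel
    · intro hx2
      obtain ⟨v, hv, hv2⟩ := (memL _).1 hx2
      apply A7 u hu v hv
      have : v = 2 • (2 • (2 • (h + u))) - h := by rw [← hv2]; abel
      rw [this]
      simp only [smul_add, smul_smul]
      norm_num
      have : (8:ℕ) • h = 7 • h + h := by rw [← succ_nsmul]
      rw [this]; abel
  · intro p hp
    have hsub1 : ∀ z ∈ Lay p.2, z ∈ T := by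
      intro z hz
      rw [hT, Finset.mem_biUnion]
      exact ⟨p, hp, Finset.mem_union_left _ hz⟩
    have hsub2 : ∀ z ∈ Lay p.2, 2 • z ∈ T := by
      intro z hz
      rw [hT, Finset.mem_biUnion]
      exact ⟨p, hp, Finset.mem_union_right _ (Finset.mem_image_of_mem _ hz)⟩
    exact ⟨hk p hp, fun z hz hz2 => B1 z hz (hsub1 z hz2), fun z hz hz2 => B2 z hz (hsub1 _ hz2),
      fun z hz hz2 => B1 _ hz2 (hsub2 z hz)⟩

/-- the sequence of levels -/
theorem levels [Finite (D2 G).ker] (e : ℕ → G) (hinf : (Set.range (fun x : G => 21 • x)).Infinite) :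
    ∃ f : ℕ → ℕ × Finset G, (∀ n, Good e (f n)) ∧ ∀ m n, m < n → Rel (f m) (f n) :=
  exists_seq_of_forall_finset_exists (Good e) Rel (fun s _ => step e hinf s)

end Pool.Agent.H534.FC
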