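import Pool.Agent.H534.FCc
open Filter Topology
set_option linter.unusedSectionVars false
namespace Pool.Agent.H534.FC
variable {G : Type*} [AddCommGroup G]

open Classical in
theorem prep [DecidableEq G] [Countable G] (hl : (D2 G).range.index ≠ 0) [Finite (D2 G).ker]
    (hinf : (Set.range (fun x : G => 21 • x)).Infinite) :
    ∃ (e : ℕ → G) (L : ℕ → Finset G) (R : ℝ), Function.Surjective e ∧ 0 < R ∧
      (∀ n, 0 < ((L n).card : ℝ)) ∧
      (∀ n, ∀ i ≤ n, (((L n).image (fun x => e i + x) \ L n).card : ℝ) ≤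
        R * ((L n).card / ((n:ℝ)+1)^2)) ∧
      (∀ n, ∀ i ≤ n, (((Dinv (L n)).image (fun x => e i + x) \ Dinv (L n)).card : ℝ) ≤
        R * ((L n).card / ((n:ℝ)+1)^2)) ∧
      (∀ n, ∀ i ≤ n,
        (((Dinv (Dinv (L n))).image (fun x => e i + x) \ Dinv (Dinv (L n))).card : ℝ) ≤
        R * ((L n).card / ((n:ℝ)+1)^2)) ∧
      Tendsto (fun n => ((Dinv (L n)).card : ℝ) / (L n).card) atTop
        (𝓝 ((Nat.card (D2 G).ker : ℝ) / ((D2 G).range.index : ℝ))) ∧
      Tendsto (fun n => ((Dinv (Dinv (L n))).card : ℝ) / (L n).card) atTop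
        (𝓝 ((Nat.card (D2 G).ker : ℝ) * ((Nat.card (D2 G).ker : ℝ) / ((D2 G).range.index : ℝ) /
          ((D2 G).range.index : ℝ)))) ∧
      Tendsto (fun n => (((Dinv (L n)).filter (· ∈ (D2 G).range)).card : ℝ) / (L n).card) atTop
        (𝓝 ((Nat.card (D2 G).ker : ℝ) / ((D2 G).range.index : ℝ) / ((D2 G).range.index : ℝ))) ∧
      (∀ n, ∀ x ∈ L n, 2 • x ∉ L n ∧ 2 • (2 • x) ∉ L n ∧ 2 • (2 • (2 • x)) ∉ L n) ∧
      (∀ m n, m < n → (∀ z ∈ Lay (L n), z ∉ Lay (L m)) ∧ (∀ z ∈ Lay (L n), 2 • z ∉ Lay (L m)) ∧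
        (∀ z ∈ Lay (L m), 2 • z ∉ Lay (L n))) := by
  obtain ⟨e, he⟩ := exists_surjective_nat G
  obtain ⟨f, hgood, hrel⟩ := levels e hinf
  set H : AddSubgroup G := (D2 G).range with hH
  have : H.FiniteIndex := ⟨hl⟩
  have : Finite (G ⧸ H) := inferInstance
  set l : ℝ := (H.index : ℝ) with hldef
  have hlpos : 0 < l := by
    rw [hldef]; exact_mod_cast Nat.pos_of_ne_zero hl
  set r : ℝ := (Nat.card (D2 G).ker : ℝ) with hrdef
  have hrpos : 0 < r := by
    rw [hrdef]; exact_mod_cast Nat.card_pos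
  set L : ℕ → Finset G := fun n => (f n).2 with hLdef
  have hk : ∀ n, n ≤ (f n).1 := by
    have hmono : StrictMono (fun n => (f n).1) :=
      strictMono_nat_of_lt_succ (fun n => (hrel n (n+1) (Nat.lt_succ_self n)).1)
    intro n
    exact hmono.le_apply
  have apos : ∀ n, 0 < ((L n).card : ℝ) := by
    intro n
    exact_mod_cast (hgood n).1.card_pos
  have sh0 : ∀ n, ∀ i ≤ n, ∀ c ∈ ({1, 2, 4} : Finset ℕ),
      (((L n).image (fun x => c • e i + x) \ L n).card : ℝ) ≤ (L n).card / ((n:ℝ)+1)^2 := by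
    intro n i hi c hc
    have h1 := (hgood n).2.1 i (hi.trans (hk n)) c hc
    have h2 : (n+1)^2 * (((L n).image (fun x => c • e i + x) \ L n).card) ≤ (L n).card := by
      refine le_trans (Nat.mul_le_mul_right _ ?_) h1
      exact Nat.pow_le_pow_left (Nat.succ_le_succ (hk n)) 2
    rw [le_div_iff₀ (by positivity)]
    have h3 : (((n+1)^2 * (((L n).image (fun x => c • e i + x) \ L n).card) : ℕ) : ℝ) ≤ ((L n).card : ℝ) := by
      exact_mod_cast h2
    push_cast at h3
    linarith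
  set R : ℝ := (1 + r)^2 with hR
  have hR1 : 1 ≤ R := by rw [hR]; nlinarith
  have hR2 : r ≤ R := by rw [hR]; nlinarith
  have hR3 : r * r ≤ R := by rw [hR]; nlinarith
  have hRpos : 0 < R := by positivity
  set δ : ℕ → ℝ := fun n => R * ((L n).card / ((n:ℝ)+1)^2) with hδ
  have hq : ∀ n, 0 ≤ ((L n).card : ℝ) / ((n:ℝ)+1)^2 := fun n => by positivity
  have S0 : ∀ n, ∀ i ≤ n, (((L n).image (fun x => e i + x) \ L n).card : ℝ) ≤ δ n := by
    intro n i hi
    have h1 := sh0 n i hi 1 (by simp)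
    simp only [one_smul] at h1
    refine h1.trans ?_
    have := hq n
    simp only [hδ]
    nlinarith
  have S1 : ∀ n, ∀ i ≤ n,
      (((Dinv (L n)).image (fun x => e i + x) \ Dinv (L n)).card : ℝ) ≤ δ n := by
    intro n i hi
    have h1 := sh0 n i hi 2 (by simp)
    have h2 : (((Dinv (L n)).image (fun x => e i + x) \ Dinv (L n)).card : ℝ) ≤
        r * (((L n).image (fun x => 2 • e i + x) \ L n).card : ℝ) := by
      rw [hrdef]; exact_mod_cast shift_Dinv_card (L n) (e i)
    refine h2.trans ?_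
    have h3 := mul_le_mul_of_nonneg_left h1 hrpos.le
    refine h3.trans ?_
    simp only [hδ]
    exact mul_le_mul_of_nonneg_right hR2 (hq n)
  have S2 : ∀ n, ∀ i ≤ n,
      (((Dinv (Dinv (L n))).image (fun x => e i + x) \ Dinv (Dinv (L n))).card : ℝ) ≤ δ n := by
    intro n i hi
    have h1 := sh0 n i hi 4 (by simp)
    have h2 : (((Dinv (Dinv (L n))).image (fun x => e i + x) \ Dinv (Dinv (L n))).card : ℝ) ≤
        r * (((Dinv (L n)).image (fun x => 2 • e i + x) \ Dinv (L n)).card : ℝ) := by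
      rw [hrdef]; exact_mod_cast shift_Dinv_card (Dinv (L n)) (e i)
    have h4 : (((Dinv (L n)).image (fun x => 2 • e i + x) \ Dinv (L n)).card : ℝ) ≤
        r * (((L n).image (fun x => 2 • (2 • e i) + x) \ L n).card : ℝ) := by
      rw [hrdef]; exact_mod_cast shift_Dinv_card (L n) ((2:ℕ) • e i)
    have h5 : (2 • (2 • e i) : G) = 4 • e i := by rw [smul_smul]; norm_num
    rw [h5] at h4
    refine h2.trans ?_
    have h6 := mul_le_mul_of_nonneg_left (h4.trans (mul_le_mul_of_nonneg_left h1 hrpos.le)) hrpos.le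
    refine h6.trans ?_
    simp only [hδ]
    rw [← mul_assoc]
    exact mul_le_mul_of_nonneg_right hR3 (hq n)
  have hz1 : Tendsto (fun n : ℕ => 1 / ((n:ℝ)+1)) atTop (𝓝 0) := tendsto_one_div_add_atTop_nhds_zero_nat
  have hz2 : Tendsto (fun n : ℕ => 1 / ((n:ℝ)+1)^2) atTop (𝓝 0) := by
    have := hz1.mul hz1
    rw [mul_zero] at this
    refine this.congr (fun n => ?_)
    field_simp
  -- limit of the even part of a layer
  have evlim : ∀ (M : ℕ → Finset G) (μ : ℝ),
      (∀ n, ∀ i ≤ n, (((M n).image (fun x => e i + x) \ M n).card : ℝ) ≤ δ n) →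
      Tendsto (fun n => ((M n).card : ℝ) / (L n).card) atTop (𝓝 μ) →
      Tendsto (fun n => (((M n).filter (· ∈ H)).card : ℝ) / (L n).card) atTop (𝓝 (μ / l)) := by
    intro M μ hM hlim
    choose i1 hi1 using fun c : G ⧸ H => he c.out
    choose i2 hi2 using fun c : G ⧸ H => he (-c.out)
    obtain ⟨N1, hN1⟩ := (Set.finite_range i1).bddAbove
    obtain ⟨N2, hN2⟩ := (Set.finite_range i2).bddAbove
    have hb : ∀ n, max N1 N2 ≤ n → ‖((M n).card : ℝ) / (L n).card -
        l * ((((M n).filter (· ∈ H)).card : ℝ) / (L n).card)‖ ≤ l * R * (1 / ((n:ℝ)+1)^2) := by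
      intro n hn
      have h1 := even_count (M n) H (δ n) (by
        rintro g ⟨c, hc | hc⟩
        · rw [hc, ← hi1 c]
          exact hM n _ ((hN1 ⟨c, rfl⟩).trans ((le_max_left _ _).trans hn))
        · rw [hc, ← hi2 c]
          exact hM n _ ((hN2 ⟨c, rfl⟩).trans ((le_max_right _ _).trans hn)))
      have h2 : (Nat.card (G ⧸ H) : ℝ) = l := by rw [hldef]; rfl
      rw [h2] at h1
      have h3 : ((M n).card : ℝ) / (L n).card -
        l * ((((M n).filter (· ∈ H)).card : ℝ) / (L n).card) =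
        (((M n).card : ℝ) - l * (((M n).filter (· ∈ H)).card : ℝ)) / (L n).card := by ring
      rw [h3, Real.norm_eq_abs, abs_div, abs_of_pos (apos n), div_le_iff₀ (apos n)]
      refine h1.trans (le_of_eq ?_)
      simp only [hδ]
      ring
    have h0 : Tendsto (fun n => ((M n).card : ℝ) / (L n).card -
        l * ((((M n).filter (· ∈ H)).card : ℝ) / (L n).card)) atTop (𝓝 0) := by
      refine squeeze_zero_norm' (eventually_atTop.2 ⟨max N1 N2, hb⟩) ?_
      have := hz2.const_mul (l * R)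
      rwa [mul_zero] at this
    have h4 := (hlim.sub h0).div_const l
    rw [sub_zero] at h4
    refine h4.congr (fun n => ?_)
    field_simp
    ring
  have hρ0 : Tendsto (fun n => ((L n).card : ℝ) / (L n).card) atTop (𝓝 1) := by
    refine tendsto_const_nhds.congr (fun n => ?_)
    rw [div_self (apos n).ne']
  have v0 := evlim L 1 S0 hρ0
  have u1 : Tendsto (fun n => ((Dinv (L n)).card : ℝ) / (L n).card) atTop (𝓝 (r / l)) := by
    have := v0.const_mul r
    have h1 : r * (1 / l) = r / l := by ring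
    rw [h1] at this
    refine this.congr (fun n => ?_)
    rw [card_Dinv (L n)]
    push_cast
    rw [mul_div_assoc]
  have v1 := evlim (fun n => Dinv (L n)) _ S1 u1
  have u2 : Tendsto (fun n => ((Dinv (Dinv (L n))).card : ℝ) / (L n).card) atTop (𝓝 (r * (r / l / l))) := by
    have := v1.const_mul r
    refine this.congr (fun n => ?_)
    rw [card_Dinv (Dinv (L n))]
    push_cast
    rw [mul_div_assoc]
  exact ⟨e, L, R, he, hRpos, apos, S0, S1, S2, u1, u2, v1, fun n => (hgood n).2.2,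
    fun m n hmn => (hrel m n hmn).2⟩

end Pool.Agent.H534.FC
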