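import Mathlib
open Filter Topology
namespace Pool.Agent.H534.FC
variable {G : Type*} [AddCommGroup G]

/-- `Φ` is a Følner sequence in the abelian group `G`: for every `g` the proportion
`|Φ_N ∩ (g + Φ_N)| / |Φ_N|` tends to `1`. -/
def IsFolner (Φ : ℕ → Finset G) : Prop :=
  ∀ g : G, Tendsto (fun N => (((Φ N : Set G) ∩ ((fun x => g + x) '' (Φ N : Set G))).ncard : ℝ) /
    ((Φ N).card : ℝ)) atTop (𝓝 1)

/-- The upper density of `A` along `Φ`. -/
noncomputable def upperDensity (Φ : ℕ → Finset G) (A : Set G) : ℝ :=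
  limsup (fun N => ((A ∩ (Φ N : Set G)).ncard : ℝ) / ((Φ N).card : ℝ)) atTop

/-- The doubling ratio of `Φ`: the lower limit of `|{x ∈ Φ_N : 2x ∈ Φ_N}| / |Φ_N|`. -/
noncomputable def doublingRatio (Φ : ℕ → Finset G) : ℝ :=
  liminf (fun N => (({x : G | 2 • x ∈ Φ N} ∩ (Φ N : Set G)).ncard : ℝ) / ((Φ N).card : ℝ)) atTop

end Pool.Agent.H534.FC
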