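import Pool.Agent.H534.FCd
import Pool.Agent.H534.FCdefs
open Filter Topology
set_option linter.unusedSectionVars false
namespace Pool.Agent.H534.FC
variable {G : Type*} [AddCommGroup G]

open Classical in
theorem main [DecidableEq G] [Countable G] (hl : (D2 G).range.index ≠ 0) [Finite (D2 G).ker]
    (hinf : (Set.range (fun x : G => 21 • x)).Infinite) :
    ∃ Φ : ℕ → Finset G, IsFolner Φ ∧ 0 < doublingRatio Φ ∧ ∃ A : Set G,
      upperDensity Φ A =
        1 - doublingRatio Φ / (((D2 G).range.index : ℝ) + (Nat.card (D2 G).ker : ℝ)) ∧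
      ∀ B : Set G, B.Infinite → ¬ (∀ x ∈ B, ∀ y ∈ B, x + y ∈ A) := by
  obtain ⟨e, L, R, he, hRpos, apos, S0, S1, S2, u1, u2, v1, hgood, hrel⟩ := prep hl hinf
  have : (D2 G).range.FiniteIndex := ⟨hl⟩
  have : Finite (G ⧸ (D2 G).range) := inferInstance
  set l : ℝ := ((D2 G).range.index : ℝ) with hldef
  have hlpos : 0 < l := by
    rw [hldef]; exact_mod_cast Nat.pos_of_ne_zero hl
  set r : ℝ := (Nat.card (D2 G).ker : ℝ) with hrdef
  have hrpos : 0 < r := by
    rw [hrdef]; exact_mod_cast Nat.card_pos
  set δ : ℕ → ℝ := fun n => R * ((L n).card / ((n:ℝ)+1)^2) with hδ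
  have hz1 : Tendsto (fun n : ℕ => 1 / ((n:ℝ)+1)) atTop (𝓝 0) := tendsto_one_div_add_atTop_nhds_zero_nat
  have hz2 : Tendsto (fun n : ℕ => 1 / ((n:ℝ)+1)^2) atTop (𝓝 0) := by
    have := hz1.mul hz1
    rw [mul_zero] at this
    refine this.congr (fun n => ?_)
    field_simp
  -- disjointness inside a level
  have d01 : ∀ n, Disjoint (L n) (Dinv (L n)) := by
    intro n
    rw [Finset.disjoint_left]
    intro x hx hx2
    exact (hgood n x hx).1 ((mem_Dinv _ _).1 hx2)
  have d02 : ∀ n, Disjoint (L n) (Dinv (Dinv (L n))) := by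
    intro n
    rw [Finset.disjoint_left]
    intro x hx hx2
    rw [mem_Dinv, mem_Dinv] at hx2
    exact (hgood n x hx).2.1 hx2
  have d12 : ∀ n, Disjoint (Dinv (L n)) (Dinv (Dinv (L n))) := by
    intro n
    rw [Finset.disjoint_left]
    intro x hx hx2
    rw [mem_Dinv] at hx
    rw [mem_Dinv, mem_Dinv] at hx2
    exact (hgood n _ hx).1 hx2
  have cardLay : ∀ n, (Lay (L n)).card = (L n).card + (Dinv (L n)).card + (Dinv (Dinv (L n))).card := by
    intro n
    rw [Lay, Finset.card_union_of_disjoint, Finset.card_union_of_disjoint (d01 n)]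
    rw [Finset.disjoint_union_left]
    exact ⟨d02 n, d12 n⟩
  set s : ℝ := 1 + r / l + r * (r / l / l) with hs
  have hspos : 0 < s := by positivity
  have hsz : Tendsto (fun n => ((Lay (L n)).card : ℝ) / (L n).card) atTop (𝓝 s) := by
    have := (tendsto_const_nhds (x := (1:ℝ))).add u1 |>.add u2
    refine this.congr (fun n => ?_)
    rw [cardLay]
    push_cast
    rw [add_div, add_div, div_self (apos n).ne']
  have Lpos : ∀ n, 0 < ((Lay (L n)).card : ℝ) := by
    intro n
    rw [cardLay]
    push_cast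
    have := apos n
    positivity
  -- quotient limits
  have quot : ∀ (w : ℕ → ℝ) (μ : ℝ), Tendsto (fun n => w n / (L n).card) atTop (𝓝 μ) →
      Tendsto (fun n => w n / (Lay (L n)).card) atTop (𝓝 (μ / s)) := by
    intro w μ hw
    refine (hw.div hsz hspos.ne').congr (fun n => ?_)
    simp only [Pi.div_apply]
    rw [div_div_div_cancel_right₀ (apos n).ne']
  -- the exceptional sets
  set E : ℕ → Finset G := fun n => L n ∪ Dinv (Dinv (L n)) with hE
  set Ei : ℕ → Finset G := fun n => (E n).filter (fun x => ∀ i ≤ n, x - e i ∈ E n) with hEi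
  set A : Set G := {x | x ∉ (D2 G).range} ∪ {x | ∃ n, x ∈ Ei n} with hA
  have hELay : ∀ n, E n ⊆ Lay (L n) := by
    intro n x hx
    simp only [hE, Finset.mem_union, mem_Dinv] at hx
    rw [mem_Lay]
    tauto
  have hEiE : ∀ n, Ei n ⊆ E n := fun n => Finset.filter_subset _ _
  have diffcard : ∀ n, ((E n \ Ei n).card : ℝ) ≤ 2 * R * (L n).card * (1 / ((n:ℝ)+1)) := by
    intro n
    have hsub : E n \ Ei n ⊆ (Finset.range (n+1)).biUnion (fun i =>
        (L n \ (L n).image (fun x => e i + x)) ∪
        (Dinv (Dinv (L n)) \ (Dinv (Dinv (L n))).image (fun x => e i + x))) := by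
      intro x hx
      rw [Finset.mem_sdiff] at hx
      obtain ⟨hx1, hx2⟩ := hx
      have : ¬ ∀ i ≤ n, x - e i ∈ E n := fun h => hx2 (Finset.mem_filter.2 ⟨hx1, h⟩)
      push Not at this
      obtain ⟨i, hi, hxi⟩ := this
      rw [Finset.mem_biUnion]
      refine ⟨i, Finset.mem_range.2 (Nat.lt_succ_of_le hi), ?_⟩
      simp only [hE, Finset.mem_union, not_or] at hxi hx1
      rcases hx1 with h1 | h1
      · apply Finset.mem_union_left
        rw [Finset.mem_sdiff]
        refine ⟨h1, fun h => ?_⟩
        obtain ⟨y, hy, hy2⟩ := Finset.mem_image.1 h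
        apply hxi.1
        have : x - e i = y := by rw [← hy2]; abel
        rw [this]; exact hy
      · apply Finset.mem_union_right
        rw [Finset.mem_sdiff]
        refine ⟨h1, fun h => ?_⟩
        obtain ⟨y, hy, hy2⟩ := Finset.mem_image.1 h
        apply hxi.2
        have : x - e i = y := by rw [← hy2]; abel
        rw [this]; exact hy
    have h1 := (Finset.card_le_card hsub).trans Finset.card_biUnion_le
    have h2 : ((E n \ Ei n).card : ℝ) ≤ ∑ i ∈ Finset.range (n+1),
        (((L n \ (L n).image (fun x => e i + x)) ∪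
        (Dinv (Dinv (L n)) \ (Dinv (Dinv (L n))).image (fun x => e i + x))).card : ℝ) := by
      exact_mod_cast h1
    refine h2.trans ?_
    have h3 : ∀ i ∈ Finset.range (n+1), (((L n \ (L n).image (fun x => e i + x)) ∪
        (Dinv (Dinv (L n)) \ (Dinv (Dinv (L n))).image (fun x => e i + x))).card : ℝ) ≤ 2 * δ n := by
      intro i hi
      have hi' : i ≤ n := Nat.lt_succ_iff.1 (Finset.mem_range.1 hi)
      have h4 : (((L n \ (L n).image (fun x => e i + x)) ∪
        (Dinv (Dinv (L n)) \ (Dinv (Dinv (L n))).image (fun x => e i + x))).card : ℝ) ≤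
        ((L n \ (L n).image (fun x => e i + x)).card : ℝ) +
        ((Dinv (Dinv (L n)) \ (Dinv (Dinv (L n))).image (fun x => e i + x)).card : ℝ) := by
        exact_mod_cast Finset.card_union_le _ _
      rw [shift_neg_card, shift_neg_card] at h4
      have := S0 n i hi'
      have := S2 n i hi'
      linarith
    refine (Finset.sum_le_sum h3).trans (le_of_eq ?_)
    rw [Finset.sum_const, Finset.card_range, nsmul_eq_mul]
    simp only [hδ]
    push_cast
    field_simp
  have NAlow : ∀ n, (Dinv (L n)).filter (· ∈ (D2 G).range) ⊆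
      (Lay (L n)).filter (fun x => x ∉ A) := by
    intro n x hx
    rw [Finset.mem_filter] at hx
    obtain ⟨hx1, hxH⟩ := hx
    have hxL : x ∈ Lay (L n) := by
      rw [mem_Lay]; exact Or.inl (Or.inr ((mem_Dinv _ _).1 hx1))
    rw [Finset.mem_filter]
    refine ⟨hxL, ?_⟩
    rintro (h | ⟨m, hm⟩)
    · exact h hxH
    · have hmL := hELay m (hEiE m hm)
      rcases lt_trichotomy m n with h | h | h
      · exact (hrel m n h).1 x hxL hmL
      · subst h
        have := hEiE m hm
        simp only [hE, Finset.mem_union] at this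
        rcases this with h1 | h1
        · exact Finset.disjoint_left.1 (d01 m) h1 hx1
        · exact Finset.disjoint_left.1 (d12 m) hx1 h1
      · exact (hrel n m h).1 x hmL hxL
  have NAup : ∀ n, (Lay (L n)).filter (fun x => x ∉ A) ⊆
      (Dinv (L n)).filter (· ∈ (D2 G).range) ∪ (E n \ Ei n) := by
    intro n x hx
    rw [Finset.mem_filter] at hx
    obtain ⟨hx1, hx2⟩ := hx
    have hxH : x ∈ (D2 G).range := by
      by_contra h
      exact hx2 (Or.inl h)
    have hxE : x ∉ Ei n := fun h => hx2 (Or.inr ⟨n, h⟩)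
    rw [Finset.mem_union, Finset.mem_filter, Finset.mem_sdiff]
    by_cases hd : x ∈ Dinv (L n)
    · exact Or.inl ⟨hd, hxH⟩
    · refine Or.inr ⟨?_, hxE⟩
      simp only [Lay, Finset.mem_union] at hx1
      simp only [hE, Finset.mem_union]
      tauto
  have wlim : Tendsto (fun n => (((Lay (L n)).filter (fun x => x ∉ A)).card : ℝ) / (L n).card)
      atTop (𝓝 (r / l / l)) := by
    have hup : Tendsto (fun n => (((Dinv (L n)).filter (· ∈ (D2 G).range)).card : ℝ) / (L n).card
        + 2 * R * (1/((n:ℝ)+1))) atTop (𝓝 (r/l/l)) := by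
      have := v1.add (hz1.const_mul (2*R))
      rwa [mul_zero, add_zero] at this
    refine tendsto_of_tendsto_of_tendsto_of_le_of_le v1 hup (fun n => ?_) (fun n => ?_)
    · exact div_le_div_of_nonneg_right (Nat.cast_le.2 (Finset.card_le_card (NAlow n))) (apos n).le
    · have h1 : (((Lay (L n)).filter (fun x => x ∉ A)).card : ℝ) ≤
          (((Dinv (L n)).filter (· ∈ (D2 G).range)).card : ℝ) + ((E n \ Ei n).card : ℝ) := by
        exact_mod_cast (Finset.card_le_card (NAup n)).trans (Finset.card_union_le _ _)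
      have h2 := diffcard n
      show (((Lay (L n)).filter (fun x => x ∉ A)).card : ℝ) / (L n).card ≤
        (((Dinv (L n)).filter (· ∈ (D2 G).range)).card : ℝ) / (L n).card + 2 * R * (1/((n:ℝ)+1))
      rw [div_le_iff₀ (apos n), add_mul, div_mul_cancel₀ _ (apos n).ne']
      linarith
  have dens : Tendsto (fun n => ((A ∩ (Lay (L n) : Set G)).ncard : ℝ) / ((Lay (L n)).card : ℝ))
      atTop (𝓝 (1 - r / l / l / s)) := by
    refine ((tendsto_const_nhds (x := (1:ℝ))).sub (quot _ _ wlim)).congr (fun n => ?_)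
    have h1 : (A ∩ (Lay (L n) : Set G)).ncard = ((Lay (L n)).filter (fun x => x ∈ A)).card := by
      rw [← Set.ncard_coe_finset]
      congr 1
      ext x
      simp only [Set.mem_inter_iff, Finset.coe_filter, Set.mem_ofPred_eq, Finset.mem_coe]
      exact and_comm
    have h2 := Finset.card_filter_add_card_filter_not (s := Lay (L n)) (fun x => x ∈ A)
    have h3 : (((Lay (L n)).filter (fun x => x ∈ A)).card : ℝ) +
        (((Lay (L n)).filter (fun x => x ∉ A)).card : ℝ) = (Lay (L n)).card := by
      exact_mod_cast h2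
    rw [h1, eq_sub_of_add_eq h3, sub_div, div_self (Lpos n).ne']
  have dbl : Tendsto (fun n => (({x : G | 2 • x ∈ Lay (L n)} ∩ (Lay (L n) : Set G)).ncard : ℝ) /
      ((Lay (L n)).card : ℝ)) atTop (𝓝 ((r / l + r * (r / l / l)) / s)) := by
    have h0 : Tendsto (fun n => (((Dinv (L n)).card : ℝ) + (Dinv (Dinv (L n))).card) / (L n).card)
        atTop (𝓝 (r / l + r * (r / l / l))) := by
      refine (u1.add u2).congr (fun n => ?_)
      rw [add_div]
    refine (quot _ _ h0).congr (fun n => ?_)
    have h1 : ({x : G | 2 • x ∈ Lay (L n)} ∩ (Lay (L n) : Set G)) =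
        ((Dinv (L n) ∪ Dinv (Dinv (L n)) : Finset G) : Set G) := by
      ext x
      simp only [Set.mem_inter_iff, Set.mem_ofPred_eq, Finset.mem_coe, mem_Lay, Finset.mem_union,
        mem_Dinv]
      constructor
      · rintro ⟨h2, h3⟩
        by_cases hx : x ∈ L n
        · have := hgood n x hx
          tauto
        · tauto
      · rintro (h | h)
        · exact ⟨Or.inl (Or.inl h), Or.inl (Or.inr h)⟩
        · exact ⟨Or.inl (Or.inr h), Or.inr h⟩
    rw [h1, Set.ncard_coe_finset, Finset.card_union_of_disjoint (d12 n)]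
    push_cast
    rfl
  have i0 : ∀ n, L n ⊆ Lay (L n) := by
    intro n x hx; rw [mem_Lay]; exact Or.inl (Or.inl hx)
  have i1 : ∀ n, Dinv (L n) ⊆ Lay (L n) := by
    intro n x hx; rw [mem_Lay]; exact Or.inl (Or.inr ((mem_Dinv _ _).1 hx))
  have i2 : ∀ n, Dinv (Dinv (L n)) ⊆ Lay (L n) := by
    intro n x hx; rw [mem_Lay]; rw [mem_Dinv, mem_Dinv] at hx; exact Or.inr hx
  have fol : IsFolner (fun n => Lay (L n)) := by
    intro g
    obtain ⟨i, rfl⟩ := he g
    have hb : Tendsto (fun n => (((Lay (L n)) \ (Lay (L n)).image (fun x => e i + x)).card : ℝ) /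
        (L n).card) atTop (𝓝 0) := by
      have hz : Tendsto (fun n : ℕ => 3 * R * (1 / ((n:ℝ)+1)^2)) atTop (𝓝 0) := by
        have := hz2.const_mul (3 * R)
        rwa [mul_zero] at this
      refine tendsto_of_tendsto_of_tendsto_of_le_of_le' tendsto_const_nhds hz
        (Eventually.of_forall fun n => by positivity) (eventually_atTop.2 ⟨i, fun n hn => ?_⟩)
      have hsub : (Lay (L n)) \ (Lay (L n)).image (fun x => e i + x) ⊆
         (L n \ (L n).image (fun x => e i + x)) ∪
          (Dinv (L n) \ (Dinv (L n)).image (fun x => e i + x)) ∪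
          (Dinv (Dinv (L n)) \ (Dinv (Dinv (L n))).image (fun x => e i + x)) := by
        intro x hx
        rw [Finset.mem_sdiff] at hx
        obtain ⟨h1, h2⟩ := hx
        have n0 : x ∉ (L n).image (fun x => e i + x) :=
          fun h => h2 (Finset.image_subset_image (i0 n) h)
        have n1 : x ∉ (Dinv (L n)).image (fun x => e i + x) :=
          fun h => h2 (Finset.image_subset_image (i1 n) h)
        have n2 : x ∉ (Dinv (Dinv (L n))).image (fun x => e i + x) :=
          fun h => h2 (Finset.image_subset_image (i2 n) h)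
        simp only [Lay, Finset.mem_union] at h1
        rw [Finset.mem_union, Finset.mem_union, Finset.mem_sdiff, Finset.mem_sdiff, Finset.mem_sdiff]
        rcases h1 with (h1 | h1) | h1
        · exact Or.inl (Or.inl ⟨h1, n0⟩)
        · exact Or.inl (Or.inr ⟨h1, n1⟩)
        · exact Or.inr ⟨h1, n2⟩
      have h1 := (Finset.card_le_card hsub).trans ((Finset.card_union_le _ _).trans
        (Nat.add_le_add_right (Finset.card_union_le _ _) _))
      rw [shift_neg_card (L n), shift_neg_card (Dinv (L n)), shift_neg_card (Dinv (Dinv (L n)))] at h1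
      have h2 : (((Lay (L n)) \ (Lay (L n)).image (fun x => e i + x)).card : ℝ) ≤
        (((L n).image (fun x => e i + x) \ L n).card : ℝ) +
        (((Dinv (L n)).image (fun x => e i + x) \ Dinv (L n)).card : ℝ) +
        (((Dinv (Dinv (L n))).image (fun x => e i + x) \ Dinv (Dinv (L n))).card : ℝ) := by
        exact_mod_cast h1
      have a0 := S0 n i hn
      have a1 := S1 n i hn
      have a2 := S2 n i hn
      rw [div_le_iff₀ (apos n)]
      have h3 : 3 * R * (1 / ((n:ℝ)+1)^2) * ((L n).card : ℝ) = 3 * (R * ((L n).card / ((n:ℝ)+1)^2)) := by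
        ring
      rw [h3]
      linarith
    have hq := quot _ _ hb
    rw [zero_div] at hq
    have h1 := (tendsto_const_nhds (x := (1:ℝ))).sub hq
    rw [sub_zero] at h1
    refine h1.congr (fun n => ?_)
    have h2 : ((Lay (L n) : Set G) ∩ ((fun x => e i + x) '' (Lay (L n) : Set G))) =
        ((Lay (L n) ∩ (Lay (L n)).image (fun x => e i + x) : Finset G) : Set G) := by
      rw [Finset.coe_inter, Finset.coe_image]
    show _ = ((((Lay (L n) : Set G) ∩ ((fun x => e i + x) '' (Lay (L n) : Set G))).ncard : ℝ)) / _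
    rw [h2, Set.ncard_coe_finset]
    have h3 := Finset.card_sdiff_add_card_inter (Lay (L n)) ((Lay (L n)).image (fun x => e i + x))
    have h4 : (((Lay (L n)) \ (Lay (L n)).image (fun x => e i + x)).card : ℝ) +
      ((Lay (L n) ∩ (Lay (L n)).image (fun x => e i + x)).card : ℝ) = (Lay (L n)).card := by
      exact_mod_cast h3
    rw [← eq_sub_iff_add_eq'] at h4
    rw [h4, sub_div, div_self (Lpos n).ne']
  have noB : ∀ B : Set G, B.Infinite → ¬ (∀ x ∈ B, ∀ y ∈ B, x + y ∈ A) := by
    intro B hB hBA
    have := hB.to_subtype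
    obtain ⟨c, hc⟩ := Finite.exists_infinite_fiber
      (fun b : B => (QuotientAddGroup.mk b.1 : G ⧸ (D2 G).range))
    set B' : Set G := {b | b ∈ B ∧ (QuotientAddGroup.mk b : G ⧸ (D2 G).range) = c} with hB'def
    have hB' : B'.Infinite := by
      have hh : Subtype.val '' ((fun b : B => (QuotientAddGroup.mk b.1 : G ⧸ (D2 G).range)) ⁻¹' {c})
          ⊆ B' := by
        rintro _ ⟨b, hb, rfl⟩
        exact ⟨b.2, hb⟩
      exact Set.Infinite.mono hh ((Set.infinite_coe_iff.1 hc).image Subtype.val_injective.injOn)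
    obtain ⟨b1, hb1⟩ := hB'.nonempty
    obtain ⟨i, hi⟩ := he b1
    have hsumH : ∀ x ∈ B', ∀ y ∈ B', x + y ∈ (D2 G).range := by
      intro x hx y hy
      have h1 : -x + y ∈ (D2 G).range := by rw [← QuotientAddGroup.eq, hx.2, hy.2]
      have h2 : x + x ∈ (D2 G).range := ⟨x, by simp [two_nsmul]⟩
      have h3 : x + y = (x + x) + (-x + y) := by abel
      rw [h3]; exact add_mem h2 h1
    have hmem : ∀ x ∈ B', ∀ y ∈ B', ∃ n, x + y ∈ Ei n := by
      intro x hx y hy
      rcases hBA x hx.1 y hy.1 with h | h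
      · exact absurd (hsumH x hx y hy) h
      · exact h
    have hfin : (((Finset.range i).biUnion Ei : Finset G) : Set G).Finite := Finset.finite_toSet _
    obtain ⟨b, hb, hbn⟩ : ∃ b ∈ B', b1 + b ∉ (((Finset.range i).biUnion Ei : Finset G) : Set G) := by
      by_contra hcon
      push Not at hcon
      apply hB'
      exact (hfin.preimage ((add_right_injective b1).injOn)).subset hcon
    obtain ⟨n, hn⟩ := hmem b1 hb1 b hb
    have hni : i ≤ n := by
      by_contra h
      push Not at h
      exact hbn (Finset.mem_coe.2 (Finset.mem_biUnion.2 ⟨n, Finset.mem_range.2 h, hn⟩))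
    have hbE : b ∈ E n := by
      have h1 := (Finset.mem_filter.1 hn).2 i hni
      rw [hi, add_sub_cancel_left] at h1
      exact h1
    obtain ⟨m, hm⟩ := hmem b hb b hb
    have h2b : 2 • b ∈ E m := by rw [two_nsmul]; exact hEiE m hm
    rcases lt_trichotomy m n with h | h | h
    · exact (hrel m n h).2.1 b (hELay n hbE) (hELay m h2b)
    · subst h
      simp only [hE, Finset.mem_union, mem_Dinv] at hbE h2b
      rcases hbE with h1 | h1
      · have := hgood m b h1
        tauto
      · rcases h2b with h3 | h3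
        · exact (hgood m _ h3).1 h1
        · exact (hgood m _ h1).1 h3
    · exact (hrel n m h).2.2 b (hELay n hbE) (hELay m h2b)
  have e1 : doublingRatio (fun n => Lay (L n)) = (r / l + r * (r / l / l)) / s := dbl.liminf_eq
  have e2 : upperDensity (fun n => Lay (L n)) A = 1 - r / l / l / s := dens.limsup_eq
  refine ⟨fun n => Lay (L n), fol, ?_, A, ?_, noB⟩
  · rw [e1]; positivity
  · rw [e1, e2]
    have : l + r ≠ 0 := by positivity
    have : s ≠ 0 := hspos.ne'
    have : l ≠ 0 := hlpos.ne'
    field_simp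

end Pool.Agent.H534.FC
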