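import Pool.Agent.H534.FCb
import Pool.Agent.H534.FCdefs
open Filter Topology
set_option linter.unusedSectionVars false
namespace Pool.Agent.H534.FC
variable {G : Type*} [AddCommGroup G]

theorem closure_finite (h21 : (Set.range (fun x : G => 21 • x)).Finite) (S : Finset G) :
    ((AddSubgroup.closure (S : Set G) : AddSubgroup G) : Set G).Finite := by
  have hfin : Finite (AddMonoidHom.range (nsmulAddMonoidHom 21 : G →+ G)) := by
    apply Set.Finite.to_subtype
    have h : ((AddMonoidHom.range (nsmulAddMonoidHom 21 : G →+ G) : AddSubgroup G) : Set G) =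
        Set.range (fun x : G => 21 • x) := by
      rw [AddMonoidHom.coe_range]; rfl
    rw [h]; exact h21
  obtain ⟨m, hm, hm2⟩ : ∃ m : ℕ, 0 < m ∧ ∀ x : G, m • x = 0 := by
    refine ⟨Nat.card (AddMonoidHom.range (nsmulAddMonoidHom 21 : G →+ G)) * 21,
      Nat.mul_pos Nat.card_pos (by norm_num), fun x => ?_⟩
    rw [mul_smul]
    have h1 := card_nsmul_eq_zero'
      (x := (⟨21 • x, ⟨x, rfl⟩⟩ : AddMonoidHom.range (nsmulAddMonoidHom 21 : G →+ G)))
    have h2 := congrArg Subtype.val h1
    simpa using h2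
  have hfg : AddGroup.FG (AddSubgroup.closure (S : Set G)) := by
    rw [AddGroup.fg_iff_addSubgroup_fg]
    exact ⟨S, rfl⟩
  have htor : IsAddTorsion (AddSubgroup.closure (S : Set G)) := by
    intro x
    rw [isOfFinAddOrder_iff_nsmul_eq_zero]
    refine ⟨m, hm, ?_⟩
    ext
    exact hm2 x.1
  have := AddCommGroup.finite_of_fg_isAddTorsion (AddSubgroup.closure (S : Set G)) htor
  exact Set.toFinite _

/-- data of a level: index, finite subgroup, translate -/
def Good2 (e : ℕ → G) (p : ℕ × AddSubgroup G × G) : Prop :=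
  (p.2.1 : Set G).Finite ∧ (∀ i ≤ p.1, e i ∈ p.2.1) ∧ (∀ g : G, 21 • g ∈ p.2.1) ∧
  (∀ c : G ⧸ (D2 G).range, c.out ∈ p.2.1) ∧ p.2.2 ∉ p.2.1 ∧ 3 • p.2.2 ∈ p.2.1

/-- relation of levels -/
def Rel2 (p q : ℕ × AddSubgroup G × G) : Prop :=
  p.1 < q.1 ∧ p.2.1 ≤ q.2.1 ∧ p.2.2 ∈ q.2.1

theorem step2 [Finite (G ⧸ (D2 G).range)] (e : ℕ → G)
    (h7 : (Set.range (fun x : G => 7 • x)).Infinite)
    (h21 : (Set.range (fun x : G => 21 • x)).Finite)
    (s : Finset (ℕ × AddSubgroup G × G)) (hs : ∀ p ∈ s, Good2 e p) :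
    ∃ q : ℕ × AddSubgroup G × G, Good2 e q ∧ ∀ p ∈ s, Rel2 p q := by
  classical
  obtain ⟨k, hk⟩ : ∃ k : ℕ, ∀ p ∈ s, p.1 < k :=
    ⟨s.sup (fun p => p.1) + 1, fun p hp => Nat.lt_succ_of_le (Finset.le_sup (f := fun p => p.1) hp)⟩
  have hUfin : (⋃ p ∈ s, (p.2.1 : Set G)).Finite :=
    s.finite_toSet.biUnion (fun p hp => (hs p hp).1)
  have houtfin : (Set.range (fun c : G ⧸ (D2 G).range => c.out)).Finite := Set.finite_range _
  set S : Finset G := (Finset.range (k+1)).image e ∪ h21.toFinset ∪ houtfin.toFinset ∪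
    hUfin.toFinset ∪ s.image (fun p => p.2.2) with hS
  set K : AddSubgroup G := AddSubgroup.closure (S : Set G) with hK
  have hKfin : (K : Set G).Finite := closure_finite h21 S
  have hSK : ∀ x ∈ S, x ∈ K := fun x hx => AddSubgroup.subset_closure (Finset.mem_coe.2 hx)
  obtain ⟨y, hy, hy2⟩ := h7.exists_notMem_finite hKfin
  obtain ⟨z, rfl⟩ := hy
  have h21K : ∀ g : G, 21 • g ∈ K := by
    intro g
    apply hSK
    rw [hS]
    simp only [Finset.mem_union, Set.Finite.mem_toFinset]
    exact Or.inl (Or.inl (Or.inl (Or.inr ⟨g, rfl⟩)))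
  refine ⟨(k, K, 7 • z), ⟨hKfin, ?_, h21K, ?_, hy2, ?_⟩, ?_⟩
  · intro i hi
    apply hSK
    rw [hS]
    simp only [Finset.mem_union]
    exact Or.inl (Or.inl (Or.inl (Or.inl (Finset.mem_image_of_mem _
      (Finset.mem_range.2 (Nat.lt_succ_of_le hi))))))
  · intro c
    apply hSK
    rw [hS]
    simp only [Finset.mem_union, Set.Finite.mem_toFinset]
    exact Or.inl (Or.inl (Or.inr ⟨c, rfl⟩))
  · have := h21K z
    show 3 • (7 • z) ∈ K
    rw [smul_smul]
    exact this
  · intro p hp
    refine ⟨hk p hp, ?_, ?_⟩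
    · intro x hx
      apply hSK
      rw [hS]
      simp only [Finset.mem_union, Set.Finite.mem_toFinset, Set.mem_iUnion]
      exact Or.inl (Or.inr ⟨p, hp, hx⟩)
    · apply hSK
      rw [hS]
      simp only [Finset.mem_union]
      exact Or.inr (Finset.mem_image_of_mem (fun p : ℕ × AddSubgroup G × G => p.2.2) hp)

theorem levels2 [Finite (G ⧸ (D2 G).range)] (e : ℕ → G)
    (h7 : (Set.range (fun x : G => 7 • x)).Infinite)
    (h21 : (Set.range (fun x : G => 21 • x)).Finite) :
    ∃ f : ℕ → ℕ × AddSubgroup G × G, (∀ n, Good2 e (f n)) ∧ ∀ m n, m < n → Rel2 (f m) (f n) :=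
  exists_seq_of_forall_finset_exists (Good2 e) Rel2 (fun s hs => step2 e h7 h21 s hs)

open Classical in
theorem main2 [DecidableEq G] [Countable G] (hl : (D2 G).range.index ≠ 0) [Finite (D2 G).ker]
    (h7 : (Set.range (fun x : G => 7 • x)).Infinite)
    (h21 : (Set.range (fun x : G => 21 • x)).Finite) :
    ∃ Φ : ℕ → Finset G, IsFolner Φ ∧ 0 < doublingRatio Φ ∧ ∃ A : Set G,
      upperDensity Φ A =
        1 - doublingRatio Φ / (((D2 G).range.index : ℝ) + (Nat.card (D2 G).ker : ℝ)) ∧
      ∀ B : Set G, B.Infinite → ¬ (∀ x ∈ B, ∀ y ∈ B, x + y ∈ A) := by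
  have : (D2 G).range.FiniteIndex := ⟨hl⟩
  have : Finite (G ⧸ (D2 G).range) := inferInstance
  obtain ⟨e, he⟩ := exists_surjective_nat G
  obtain ⟨f, hgood, hrel⟩ := levels2 e h7 h21
  obtain ⟨K, hKdef⟩ : ∃ K : ℕ → AddSubgroup G, ∀ n, K n = (f n).2.1 := ⟨_, fun _ => rfl⟩
  obtain ⟨x, hxdef⟩ : ∃ x : ℕ → G, ∀ n, x n = (f n).2.2 := ⟨_, fun _ => rfl⟩
  set l : ℝ := ((D2 G).range.index : ℝ) with hldef
  have hlpos : 0 < l := by
    rw [hldef]; exact_mod_cast Nat.pos_of_ne_zero hl
  set r : ℝ := (Nat.card (D2 G).ker : ℝ) with hrdef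
  have hk : ∀ n, n ≤ (f n).1 := by
    have hmono : StrictMono (fun n => (f n).1) :=
      strictMono_nat_of_lt_succ (fun n => (hrel n (n+1) (Nat.lt_succ_self n)).1)
    intro n
    exact hmono.le_apply
  have Kfin : ∀ n, ((K n : Set G)).Finite := fun n => by rw [hKdef]; exact (hgood n).1
  have Ke : ∀ n i, i ≤ n → e i ∈ K n := fun n i hi => by
    rw [hKdef]; exact (hgood n).2.1 i (hi.trans (hk n))
  have K21 : ∀ n, ∀ g : G, 21 • g ∈ K n := fun n => by rw [hKdef]; exact (hgood n).2.2.1
  have Kout : ∀ n, ∀ c : G ⧸ (D2 G).range, c.out ∈ K n := fun n => by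
    rw [hKdef]; exact (hgood n).2.2.2.1
  have xK : ∀ n, x n ∉ K n := fun n => by rw [hKdef, hxdef]; exact (hgood n).2.2.2.2.1
  have x3 : ∀ n, 3 • x n ∈ K n := fun n => by rw [hKdef, hxdef]; exact (hgood n).2.2.2.2.2
  have Kmono : ∀ m n, m < n → K m ≤ K n := fun m n h => by
    rw [hKdef, hKdef]; exact (hrel m n h).2.1
  have Kx : ∀ m n, m < n → x m ∈ K n := fun m n h => by
    rw [hKdef, hxdef]; exact (hrel m n h).2.2
  obtain ⟨Kf, hKf⟩ : ∃ Kf : ℕ → Finset G, ∀ n z, z ∈ Kf n ↔ z ∈ K n :=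
    ⟨fun n => (Kfin n).toFinset, fun n z => by simp⟩
  obtain ⟨P, hP⟩ : ∃ P : ℕ → Finset G, ∀ n, P n = (Kf n).image (fun z => x n + z) := ⟨_, fun _ => rfl⟩
  obtain ⟨M, hM⟩ : ∃ M : ℕ → Finset G, ∀ n, M n = (Kf n).image (fun z => -x n + z) := ⟨_, fun _ => rfl⟩
  have memP : ∀ n z, z ∈ P n ↔ z - x n ∈ K n := by
    intro n z
    rw [hP, Finset.mem_image]
    constructor
    · rintro ⟨y, hy, rfl⟩
      rw [add_sub_cancel_left]; exact (hKf n y).1 hy
    · intro h
      exact ⟨z - x n, (hKf n _).2 h, by abel⟩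
  have memM : ∀ n z, z ∈ M n ↔ z + x n ∈ K n := by
    intro n z
    rw [hM, Finset.mem_image]
    constructor
    · rintro ⟨y, hy, rfl⟩
      have : -x n + y + x n = y := by abel
      rw [this]; exact (hKf n y).1 hy
    · intro h
      exact ⟨z + x n, (hKf n _).2 h, by abel⟩
  have cardP : ∀ n, (P n).card = (Kf n).card := fun n => by
    rw [hP, Finset.card_image_of_injective _ (add_right_injective _)]
  have cardM : ∀ n, (M n).card = (Kf n).card := fun n => by
    rw [hM, Finset.card_image_of_injective _ (add_right_injective _)]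
  have kpos : ∀ n, 0 < ((Kf n).card : ℝ) := by
    intro n
    have : (Kf n).Nonempty := ⟨0, (hKf n 0).2 (zero_mem _)⟩
    exact_mod_cast this.card_pos
  have disj : ∀ n, Disjoint (P n) (M n) := by
    intro n
    rw [Finset.disjoint_left]
    intro z h1 h2
    rw [memP] at h1
    rw [memM] at h2
    apply xK n
    have h3 : x n = 3 • x n - ((z + x n) - (z - x n)) := by
      have : (3:ℕ) • x n = x n + x n + x n := by
        rw [show (3:ℕ) = 1 + 1 + 1 from rfl, add_smul, add_smul, one_smul]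
      rw [this]; abel
    rw [h3]
    exact sub_mem (x3 n) (sub_mem h2 h1)
  obtain ⟨Φ, hΦ⟩ : ∃ Φ : ℕ → Finset G, ∀ n, Φ n = P n ∪ M n := ⟨_, fun _ => rfl⟩
  have cardΦ : ∀ n, ((Φ n).card : ℝ) = 2 * (Kf n).card := by
    intro n
    rw [hΦ, Finset.card_union_of_disjoint (disj n), cardP, cardM]
    push_cast; ring
  have Φpos : ∀ n, 0 < ((Φ n).card : ℝ) := fun n => by
    rw [cardΦ]; have := kpos n; positivity
  have dblP : ∀ n z, z ∈ P n → 2 • z ∈ M n := by
    intro n z hz
    rw [memP] at hz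
    rw [memM]
    have h3 : 2 • z + x n = 2 • (z - x n) + 3 • x n := by
      rw [smul_sub, show (3:ℕ) • x n = 2 • x n + x n from succ_nsmul _ _]; abel
    rw [h3]
    exact add_mem (nsmul_mem hz 2) (x3 n)
  have dblM : ∀ n z, z ∈ M n → 2 • z ∈ P n := by
    intro n z hz
    rw [memM] at hz
    rw [memP]
    have h3 : 2 • z - x n = 2 • (z + x n) - 3 • x n := by
      rw [smul_add, show (3:ℕ) • x n = 2 • x n + x n from succ_nsmul _ _]; abel
    rw [h3]
    exact sub_mem (nsmul_mem hz 2) (x3 n)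
  have shP : ∀ n, ∀ g ∈ K n, ∀ z ∈ P n, g + z ∈ P n := by
    intro n g hg z hz
    rw [memP] at hz ⊢
    have : g + z - x n = g + (z - x n) := by abel
    rw [this]; exact add_mem hg hz
  have shM : ∀ n, ∀ g ∈ K n, ∀ z ∈ M n, g + z ∈ M n := by
    intro n g hg z hz
    rw [memM] at hz ⊢
    have : g + z + x n = g + (z + x n) := by abel
    rw [this]; exact add_mem hg hz
  have evc : ∀ n, ∀ N : Finset G, (∀ g ∈ K n, ∀ z ∈ N, g + z ∈ N) →
      (N.card : ℝ) = l * ((N.filter (· ∈ (D2 G).range)).card : ℝ) := by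
    intro n N hN
    have h := even_count N (D2 G).range 0 (by
      rintro g hg
      have hgK : g ∈ K n := by
        rcases hg with ⟨c, hc | hc⟩
        · rw [hc]; exact Kout n c
        · rw [hc]; exact neg_mem (Kout n c)
      have : N.image (fun x => g + x) \ N = ∅ := by
        rw [Finset.sdiff_eq_empty_iff_subset]
        intro y hy
        obtain ⟨z, hz, rfl⟩ := Finset.mem_image.1 hy
        exact hN g hgK z hz
      rw [this]; simp)
    rw [mul_zero] at h
    have h1 := abs_nonpos_iff.1 h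
    have h2 : (Nat.card (G ⧸ (D2 G).range) : ℝ) = l := rfl
    rw [h2] at h1
    linarith
  have hrl : r = l := by
    have h1 := evc 0 (Kf 0) (fun g hg z hz => (hKf 0 _).2 (add_mem hg ((hKf 0 z).1 hz)))
    have h2 : Dinv (Kf 0) = Kf 0 := by
      ext y
      rw [mem_Dinv, hKf, hKf]
      constructor
      · intro h
        have h3 : y = 21 • y - 10 • (2 • y) := by
          rw [smul_smul, show (21:ℕ) • y = 20 • y + y from succ_nsmul _ _]
          norm_num
        rw [h3]
        exact sub_mem (K21 0 y) (nsmul_mem h 10)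
      · intro h
        exact nsmul_mem h 2
    have h3 := card_Dinv (Kf 0)
    rw [h2] at h3
    have h4 : ((Kf 0).card : ℝ) = r * (((Kf 0).filter (· ∈ (D2 G).range)).card : ℝ) := by
      rw [hrdef]; exact_mod_cast h3
    have h5 : (((Kf 0).filter (· ∈ (D2 G).range)).card : ℝ) ≠ 0 := by
      intro h6
      rw [h6, mul_zero] at h4
      exact (kpos 0).ne' h4
    rw [h1] at h4
    exact (mul_right_cancel₀ h5 h4).symm
  set A : Set G := {z | z ∉ (D2 G).range} ∪ {z | ∃ n, z ∈ P n} with hA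
  have hNA : ∀ n, (Φ n).filter (fun z => z ∉ A) = (M n).filter (· ∈ (D2 G).range) := by
    intro n
    ext z
    rw [Finset.mem_filter, Finset.mem_filter, hΦ, Finset.mem_union]
    constructor
    · rintro ⟨h1, h2⟩
      have hzH : z ∈ (D2 G).range := by
        by_contra h
        exact h2 (Or.inl h)
      have hzP : z ∉ P n := fun h => h2 (Or.inr ⟨n, h⟩)
      exact ⟨h1.resolve_left hzP, hzH⟩
    · rintro ⟨h1, h2⟩
      refine ⟨Or.inr h1, ?_⟩
      rintro (h | ⟨m, hm⟩)
      · exact h h2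
      · have h1' := (memM n z).1 h1
        have hm' := (memP m z).1 hm
        rcases lt_trichotomy m n with h | h | h
        · have hz : z ∈ K n := by
            have : z = (z - x m) + x m := by abel
            rw [this]; exact add_mem (Kmono m n h hm') (Kx m n h)
          apply xK n
          have : x n = (z + x n) - z := by abel
          rw [this]; exact sub_mem h1' hz
        · subst h
          exact Finset.disjoint_left.1 (disj m) hm h1
        · have hz : z ∈ K m := by
            have : z = (z + x n) - x n := by abel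
            rw [this]; exact sub_mem (Kmono n m h h1') (Kx n m h)
          apply xK m
          have : x m = z - (z - x m) := by abel
          rw [this]; exact sub_mem hz hm'
  have dens : ∀ n, ((A ∩ (Φ n : Set G)).ncard : ℝ) / ((Φ n).card : ℝ) = 1 - 1 / (2 * l) := by
    intro n
    have h1 : (A ∩ (Φ n : Set G)).ncard = ((Φ n).filter (fun x => x ∈ A)).card := by
      rw [← Set.ncard_coe_finset]
      congr 1
      ext x
      simp only [Set.mem_inter_iff, Finset.coe_filter, Set.mem_ofPred_eq, Finset.mem_coe]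
      exact and_comm
    have h2 := Finset.card_filter_add_card_filter_not (s := Φ n) (fun x => x ∈ A)
    rw [hNA] at h2
    have h3 : (((Φ n).filter (fun x => x ∈ A)).card : ℝ) +
        (((M n).filter (· ∈ (D2 G).range)).card : ℝ) = (Φ n).card := by
      exact_mod_cast h2
    have h4 := evc n (M n) (shM n)
    rw [cardM] at h4
    rw [h1, eq_sub_of_add_eq h3, cardΦ, h4]
    have h5 : (((M n).filter (· ∈ (D2 G).range)).card : ℝ) ≠ 0 := by
      intro h6
      rw [h6, mul_zero] at h4
      exact (kpos n).ne' h4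
    have := hlpos.ne'
    field_simp
  have dbl : ∀ n, (({z : G | 2 • z ∈ Φ n} ∩ (Φ n : Set G)).ncard : ℝ) / ((Φ n).card : ℝ) = 1 := by
    intro n
    have h1 : ({z : G | 2 • z ∈ Φ n} ∩ (Φ n : Set G)) = ((Φ n : Finset G) : Set G) := by
      apply Set.inter_eq_right.2
      intro z hz
      rw [Finset.mem_coe, hΦ, Finset.mem_union] at hz
      rw [Set.mem_ofPred_eq, hΦ, Finset.mem_union]
      rcases hz with hz | hz
      · exact Or.inr (dblP n z hz)
      · exact Or.inl (dblM n z hz)
    rw [h1, Set.ncard_coe_finset, div_self (Φpos n).ne']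
  have fol : IsFolner Φ := by
    intro g
    obtain ⟨i, rfl⟩ := he g
    refine (tendsto_const_nhds (x := (1:ℝ))).congr' (eventually_atTop.2 ⟨i, fun n hn => ?_⟩)
    have h1 : ((Φ n : Set G) ∩ ((fun z => e i + z) '' (Φ n : Set G))) = ((Φ n : Finset G) : Set G) := by
      apply Set.inter_eq_left.2
      intro z hz
      refine ⟨-e i + z, ?_, by simp⟩
      rw [Finset.mem_coe, hΦ, Finset.mem_union] at hz ⊢
      rcases hz with hz | hz
      · exact Or.inl (shP n _ (neg_mem (Ke n i hn)) z hz)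
      · exact Or.inr (shM n _ (neg_mem (Ke n i hn)) z hz)
    show (1:ℝ) = ((((Φ n : Set G) ∩ ((fun z => e i + z) '' (Φ n : Set G))).ncard : ℝ)) /
      ((Φ n).card : ℝ)
    rw [h1, Set.ncard_coe_finset, div_self (Φpos n).ne']
  have noB : ∀ B : Set G, B.Infinite → ¬ (∀ x ∈ B, ∀ y ∈ B, x + y ∈ A) := by
    intro B hB hBA
    have := hB.to_subtype
    obtain ⟨c, hc⟩ := Finite.exists_infinite_fiber
      (fun b : B => (QuotientAddGroup.mk b.1 : G ⧸ (D2 G).range))
    set B' : Set G := {b | b ∈ B ∧ (QuotientAddGroup.mk b : G ⧸ (D2 G).range) = c} with hB'def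
    have hB' : B'.Infinite := by
      have hh : Subtype.val '' ((fun b : B => (QuotientAddGroup.mk b.1 : G ⧸ (D2 G).range)) ⁻¹' {c})
          ⊆ B' := by
        rintro _ ⟨b, hb, rfl⟩
        exact ⟨b.2, hb⟩
      exact Set.Infinite.mono hh ((Set.infinite_coe_iff.1 hc).image Subtype.val_injective.injOn)
    obtain ⟨b1, hb1⟩ := hB'.nonempty
    obtain ⟨i, hi⟩ := he b1
    have hsumH : ∀ x ∈ B', ∀ y ∈ B', x + y ∈ (D2 G).range := by
      intro x hx y hy
      have h1 : -x + y ∈ (D2 G).range := by rw [← QuotientAddGroup.eq, hx.2, hy.2]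
      have h2 : x + x ∈ (D2 G).range := ⟨x, by simp [two_nsmul]⟩
      have h3 : x + y = (x + x) + (-x + y) := by abel
      rw [h3]; exact add_mem h2 h1
    have hmem : ∀ x ∈ B', ∀ y ∈ B', ∃ n, x + y ∈ P n := by
      intro x hx y hy
      rcases hBA x hx.1 y hy.1 with h | h
      · exact absurd (hsumH x hx y hy) h
      · exact h
    have hfin : (((Finset.range i).biUnion P : Finset G) : Set G).Finite := Finset.finite_toSet _
    obtain ⟨b, hb, hbn⟩ : ∃ b ∈ B', b1 + b ∉ (((Finset.range i).biUnion P : Finset G) : Set G) := by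
      by_contra hcon
      push Not at hcon
      apply hB'
      exact (hfin.preimage ((add_right_injective b1).injOn)).subset hcon
    obtain ⟨n, hn⟩ := hmem b1 hb1 b hb
    have hni : i ≤ n := by
      by_contra h
      push Not at h
      exact hbn (Finset.mem_coe.2 (Finset.mem_biUnion.2 ⟨n, Finset.mem_range.2 h, hn⟩))
    have hbP : b ∈ P n := by
      have h1 := shP n (-e i) (neg_mem (Ke n i hni)) _ hn
      rw [hi, neg_add_cancel_left] at h1
      exact h1
    obtain ⟨m, hm⟩ := hmem b hb b hb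
    rw [← two_nsmul] at hm
    have h2M := dblP n b hbP
    have hm' := (memP m _).1 hm
    have h2' := (memM n _).1 h2M
    rcases lt_trichotomy m n with h | h | h
    · have hz : 2 • b ∈ K n := by
        have : 2 • b = (2 • b - x m) + x m := by abel
        rw [this]; exact add_mem (Kmono m n h hm') (Kx m n h)
      apply xK n
      have : x n = (2 • b + x n) - 2 • b := by abel
      rw [this]; exact sub_mem h2' hz
    · subst h
      exact Finset.disjoint_left.1 (disj m) hm h2M
    · have hz : 2 • b ∈ K m := by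
        have : 2 • b = (2 • b + x n) - x n := by abel
        rw [this]; exact sub_mem (Kmono n m h h2') (Kx n m h)
      apply xK m
      have : x m = 2 • b - (2 • b - x m) := by abel
      rw [this]; exact sub_mem hz hm'
  have e1 : doublingRatio Φ = 1 := by
    have h : Tendsto (fun n => (({z : G | 2 • z ∈ Φ n} ∩ (Φ n : Set G)).ncard : ℝ) /
      ((Φ n).card : ℝ)) atTop (𝓝 1) := (tendsto_const_nhds (x := (1:ℝ))).congr (fun n => (dbl n).symm)
    exact h.liminf_eq
  have e2 : upperDensity Φ A = 1 - 1 / (2 * l) := by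
    have h : Tendsto (fun n => ((A ∩ (Φ n : Set G)).ncard : ℝ) / ((Φ n).card : ℝ)) atTop
      (𝓝 (1 - 1 / (2 * l))) := tendsto_const_nhds.congr (fun n => (dens n).symm)
    exact h.limsup_eq
  refine ⟨Φ, fol, ?_, A, ?_, noB⟩
  · rw [e1]; norm_num
  · rw [e1, e2, hrl, two_mul]

end Pool.Agent.H534.FC
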